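import Pool.Agent.H947R2.EM.Main

set_option autoImplicit false
open scoped Pointwise

namespace Pool.Agent.Results.MP_973cda_nt.SmallDoubling

/-- Large sum-avoiding subsets of sets of integers with small doubling (helper947). -/
theorem result (K : ℝ) (A : Finset ℤ) (h2 : 2 ≤ A.card)
    (hK : ((A + A).card : ℝ) ≤ K * A.card) :
    ∃ S ⊆ A, (∀ a ∈ S, ∀ b ∈ S, a ≠ b → a + b ∉ A) ∧
      ((A.card : ℝ) - 1) / 4 < (2 * (S.card : ℝ)) ^ (16 * K + 1) :=
  H947EM.final K A h2 hK

end Pool.Agent.Results.MP_973cda_nt.SmallDoubling
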